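import Pool.Agent.H70.NC.Targets

/-!
# The limit (row CPT of nc_modules, MP_64fb07_lc)
-/

set_option autoImplicit false

namespace Pool.Agent.H49.NC

open Finset Filter Pool.Agent.H6.NB Pool.Agent.H70.OQ Pool.Agent.H70.NC

theorem isOpen_loc (P : (List Bool → Bool) → Prop) (m : ℕ)
    (h : ∀ O O' : List Bool → Bool, (∀ w, w.length ≤ m → O w = O' w) → (P O ↔ P O')) :
    IsOpen {O : List Bool → Bool | P O} := by
  rw [isOpen_iff_forall_mem_open]
  intro O hO
  refine ⟨⋂ w ∈ {w : List Bool | w.length ≤ m}, {O' : List Bool → Bool | O' w = O w}, ?_, ?_, ?_⟩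
  · intro O' hO'
    simp only [Set.mem_iInter, Set.mem_ofPred_eq] at hO' hO ⊢
    exact (h O' O hO').2 hO
  · refine Set.Finite.isOpen_biInter (List.finite_length_le Bool m) ?_
    intro w _
    have : {O' : List Bool → Bool | O' w = O w} = (fun O' : List Bool → Bool => O' w) ⁻¹' {O w} := by
      ext; simp
    rw [this]
    exact (isOpen_discrete _).preimage (continuous_apply w)
  · simp

theorem isClosed_loc (P : (List Bool → Bool) → Prop) (m : ℕ)
    (h : ∀ O O' : List Bool → Bool, (∀ w, w.length ≤ m → O w = O' w) → (P O ↔ P O')) :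
    IsClosed {O : List Bool → Bool | P O} := by
  rw [← isOpen_compl_iff]
  exact isOpen_loc (fun O => ¬ P O) m fun O O' hw => not_congr (h O O' hw)

theorem cpt : T_CPT := by
  intro key F hF C good hg hJ
  have h1 : IsClosed {O : List Bool → Bool | Kc key F O} := by
    have : {O : List Bool → Bool | Kc key F O} = ⋂ i, {O | O (key i) = true ↔ F i O} := by
      ext O
      simp [Kc]
    rw [this]
    refine isClosed_iInter fun i => isClosed_loc _ (key i).length ?_
    intro O O' hw
    rw [hw (key i) le_rfl, hF i O O' fun w hw' => hw w hw'.le]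
  have h2 : ∀ c, IsClosed {O : List Bool → Bool | good c O} := by
    intro c
    obtain ⟨m, hm⟩ := hg c
    exact isClosed_loc _ m hm
  have h3 := IsCompact.inter_iInter_nonempty h1.isCompact (fun c => {O | good c O}) h2 ?_
  · obtain ⟨O, hO, hc⟩ := h3
    exact ⟨O, hO, fun c => Set.mem_iInter.1 hc c⟩
  · intro J
    obtain ⟨O, hO, hc⟩ := hJ J
    exact ⟨O, hO, Set.mem_iInter₂.2 hc⟩

end Pool.Agent.H49.NC
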