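import Pool.Agent.H70.NC.Targets

/-!
# The error of the reductions (row ERD of nc_modules, MP_64fb07_lc)
-/

set_option autoImplicit false

namespace Pool.Agent.H49.NC

open Finset Filter Pool.Agent.H6.NB Pool.Agent.H70.OQ Pool.Agent.H70.NC

/-- the constant of the error estimate -/
def cE (k : ℕ) : ℕ := 48 * 2 ^ (k + 2) + 12 * k + 300

theorem cE_le (k a : ℕ) (h : cE k ≤ a) : cE k * 2 ^ (6 * a) ≤ 2 ^ (8 * a) := by
  have h1 : a < 2 ^ a := Nat.lt_two_pow_self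
  have h2 : (2 : ℕ) ^ a ≤ 2 ^ (2 * a) := Nat.pow_le_pow_right (by norm_num) (by omega)
  have h3 : (2 : ℕ) ^ (8 * a) = 2 ^ (2 * a) * 2 ^ (6 * a) := by
    rw [← pow_add]
    congr 1
    omega
  rw [h3]
  exact Nat.mul_le_mul_right _ (by omega)

/-- the inequalities between natural numbers -/
theorem nums (k a l n T : ℕ) (ha : a = l / 48) (hk : cE k ≤ a) (hn : 8 * n ≤ l)
    (hT : T ^ 16 ≤ 2 ^ l) :
    l / 6 + 10 + (T + 1 + 2 ^ (l / 8) + (2 * k + 1)) ≤ 2 ^ (l / 6) ∧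
    (T + 2) * k + 3 + (T + 1 + 2 ^ (l / 8) + (2 * k + 1)) ≤ 2 ^ (l / 6) ∧
    2 ^ (k + 2) * l + (T + 1 + 2 ^ (l / 8) + (2 * k + 1)) ≤ 2 ^ (l - n - l / 6 - 6) := by
  have hC : 300 ≤ cE k := by
    unfold cE
    omega
  have h0 := cE_le k a hk
  set u : ℕ := 2 ^ (6 * a) with hu
  have hu1 : 1 ≤ u := Nat.one_le_two_pow
  have hP : 2 ^ (l / 8) ≤ 32 * u := by
    have h1 : (2 : ℕ) ^ (l / 8) ≤ 2 ^ (6 * a + 5) := Nat.pow_le_pow_right (by norm_num) (by omega)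
    rw [pow_add] at h1
    omega
  have hW : 2 ^ (8 * a) ≤ 2 ^ (l / 6) := Nat.pow_le_pow_right (by norm_num) (by omega)
  have hN : 2 ^ (8 * a) ≤ 2 ^ (l - n - l / 6 - 6) := Nat.pow_le_pow_right (by norm_num) (by omega)
  have hT' : T ≤ 8 * u := by
    by_contra hc
    push Not at hc
    have h1 : (2 : ℕ) ^ (3 * a + 3) ≤ T := by
      have : (2 : ℕ) ^ (3 * a) ≤ u := Nat.pow_le_pow_right (by norm_num) (by omega)
      rw [pow_add]
      omega
    have h2 : ((2 : ℕ) ^ (3 * a + 3)) ^ 16 ≤ T ^ 16 := Nat.pow_le_pow_left h1 16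
    rw [← pow_mul] at h2
    have h3 := h2.trans hT
    have h4 := (Nat.pow_le_pow_iff_right (by norm_num : 1 < 2)).1 h3
    omega
  have hl : l ≤ 48 * u := by
    have h1 : a < 2 ^ a := Nat.lt_two_pow_self
    have h2 : (2 : ℕ) ^ a ≤ u := Nat.pow_le_pow_right (by norm_num) (by omega)
    omega
  have hku : k ≤ u * k := Nat.le_mul_of_pos_left k (by omega)
  have hE : cE k * u = 2 ^ (k + 2) * (48 * u) + 12 * (u * k) + 300 * u := by
    unfold cE
    ring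
  rw [hE] at h0
  have hpk : 0 ≤ 2 ^ (k + 2) * (48 * u) := Nat.zero_le _
  refine ⟨?_, ?_, ?_⟩
  · have : l / 6 ≤ l := Nat.div_le_self _ _
    omega
  · have h1 : (T + 2) * k ≤ (8 * u + 2) * k := Nat.mul_le_mul_right _ (by omega)
    have h2 : (8 * u + 2) * k = 8 * (u * k) + 2 * k := by ring
    omega
  · have h1 : 2 ^ (k + 2) * l ≤ 2 ^ (k + 2) * (48 * u) := Nat.mul_le_mul_left _ hl
    omega

theorem pow_exp (W N : ℕ) (hW : 0 < W) :
    (1 - 1 / (64 * (W : ℝ))) ^ (64 * W * N) ≤ (1 / 2) ^ N := by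
  have hW' : (0 : ℝ) < W := by exact_mod_cast hW
  have hW1 : (1 : ℝ) ≤ W := by exact_mod_cast hW
  have h1 : (1 - 1 / (64 * (W : ℝ))) ≤ Real.exp (-(1 / (64 * (W : ℝ)))) := by
    have := Real.add_one_le_exp (-(1 / (64 * (W : ℝ))))
    linarith
  have h0 : 0 ≤ (1 - 1 / (64 * (W : ℝ))) := by
    rw [sub_nonneg, div_le_one (by positivity)]
    linarith
  calc (1 - 1 / (64 * (W : ℝ))) ^ (64 * W * N)
      ≤ (Real.exp (-(1 / (64 * (W : ℝ))))) ^ (64 * W * N) := pow_le_pow_left₀ h0 h1 _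
    _ = Real.exp (-(N : ℝ)) := by
        rw [← Real.exp_nat_mul]
        congr 1
        push_cast
        field_simp
    _ = (Real.exp (-1)) ^ N := by
        rw [← Real.exp_nat_mul]
        congr 1
        ring
    _ ≤ (1 / 2) ^ N := by
        refine pow_le_pow_left₀ (Real.exp_pos _).le ?_ _
        rw [Real.exp_neg, one_div]
        refine inv_anti₀ (by norm_num) ?_
        have := Real.add_one_le_exp 1
        linarith

theorem errT_le (h : T_NSQ) (k l n T : ℕ) (hk : cE k ≤ l / 48) (hn : 8 * n ≤ l)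
    (hT : T ^ 16 ≤ 2 ^ l) :
    errT (Rw n l) (Yq l) (2 ^ (T + 1)) (pw l) (2 ^ (l - n)) (pq l) k ≤
      1 / 2 ^ (T + 1) / 2 ^ 2 ^ (l / 8) := by
  obtain ⟨h1, h2, h3⟩ := nums k (l / 48) l n T rfl hk hn hT
  set E : ℕ := T + 1 + 2 ^ (l / 8) + (2 * k + 1) with hE
  have hC : 300 ≤ cE k := by
    unfold cE
    omega
  have hW : pw l = 2 ^ (l / 6) := rfl
  have hWpos : 0 < pw l := by rw [hW]; positivity
  have hWr : (0 : ℝ) < (pw l : ℝ) := by exact_mod_cast hWpos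
  have hpow : ∀ A B : ℕ, A + E ≤ B → (2 : ℝ) ^ A * (1 / 2) ^ B ≤ (1 / 2) ^ E := by
    intro A B hAB
    have e1 : (1 / 2 : ℝ) ^ E = (2 : ℝ) ^ A * (1 / 2) ^ (A + E) := by
      rw [pow_add _ A, ← mul_assoc, ← mul_pow]
      norm_num
    rw [e1]
    refine mul_le_mul_of_nonneg_left ?_ (by positivity)
    exact pow_le_pow_of_le_one (by norm_num) (by norm_num) hAB
  have hfive : (5 : ℝ) / 2 ^ (pw l + 1) ≤ 2 ^ 3 * (1 / 2) ^ (pw l) := by
    rw [pow_succ, one_div, inv_pow]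
    rw [div_le_iff₀ (by positivity)]
    have : (2 : ℝ) ^ pw l ≠ 0 := by positivity
    field_simp
    norm_num
  have t1 : 2 / pq l * (5 / 2 ^ (pw l + 1)) ≤ (1 / 2) ^ E := by
    have e1 : 2 / pq l = 2 ^ (l / 6 + 7) := by
      unfold pq
      rw [hW, pow_add]
      push_cast
      field_simp
      norm_num
    rw [e1]
    calc (2 : ℝ) ^ (l / 6 + 7) * (5 / 2 ^ (pw l + 1))
        ≤ 2 ^ (l / 6 + 7) * (2 ^ 3 * (1 / 2) ^ (pw l)) :=
          mul_le_mul_of_nonneg_left hfive (by positivity)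
      _ = 2 ^ (l / 6 + 10) * (1 / 2) ^ (pw l) := by
          rw [← mul_assoc, ← pow_add]
      _ ≤ (1 / 2) ^ E := hpow _ _ (by rw [hW]; omega)
  have t2 : ∀ i ∈ range k, ((((2 ^ (T + 1) : ℕ) : ℝ)) + 1) ^ (i + 1) * (5 / 2 ^ (pw l + 1)) ≤
      (1 / 2) ^ E := by
    intro i hi
    have hi' := Finset.mem_range.1 hi
    have e1 : (((2 ^ (T + 1) : ℕ) : ℝ)) + 1 ≤ 2 ^ (T + 2) := by
      push_cast
      have : (1 : ℝ) ≤ 2 ^ (T + 1) := one_le_pow₀ (by norm_num)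
      rw [pow_succ _ (T + 1)]
      linarith
    have e2 : ((((2 ^ (T + 1) : ℕ) : ℝ)) + 1) ^ (i + 1) ≤ 2 ^ ((T + 2) * k) := by
      calc ((((2 ^ (T + 1) : ℕ) : ℝ)) + 1) ^ (i + 1) ≤ ((2 : ℝ) ^ (T + 2)) ^ (i + 1) :=
            pow_le_pow_left₀ (by positivity) e1 _
        _ ≤ ((2 : ℝ) ^ (T + 2)) ^ k := pow_le_pow_right₀ (one_le_pow₀ (by norm_num)) (by omega)
        _ = 2 ^ ((T + 2) * k) := by rw [← pow_mul]
    calc ((((2 ^ (T + 1) : ℕ) : ℝ)) + 1) ^ (i + 1) * (5 / 2 ^ (pw l + 1))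
        ≤ 2 ^ ((T + 2) * k) * (2 ^ 3 * (1 / 2) ^ (pw l)) :=
          mul_le_mul e2 hfive (by positivity) (by positivity)
      _ = 2 ^ ((T + 2) * k + 3) * (1 / 2) ^ (pw l) := by
          rw [← mul_assoc, ← pow_add]
      _ ≤ (1 / 2) ^ E := hpow _ _ (by rw [hW]; omega)
  have t3 : ∀ i ∈ range k, (Fintype.card (Node (Rw n l) (Yq l) i) : ℝ) ^ 2 *
      (1 - pq l) ^ (2 ^ (l - n)) ≤ (1 / 2) ^ E := by
    intro i hi
    have hi' := Finset.mem_range.1 hi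
    have e0 : Fintype.card (Node (Rw n l) (Yq l) i) = 2 ^ (n + (2 ^ (i + 1) - 1) * l) := (h n l i).2.2
    have e1 : (Fintype.card (Node (Rw n l) (Yq l) i) : ℝ) ^ 2 ≤ 2 ^ (2 ^ (k + 2) * l) := by
      rw [e0]
      push_cast
      rw [← pow_mul]
      refine pow_le_pow_right₀ (by norm_num) ?_
      have f1 : 2 ^ (i + 1) ≤ 2 ^ (k + 1) := Nat.pow_le_pow_right (by norm_num) (by omega)
      have f2 : 1 ≤ 2 ^ (i + 1) := Nat.one_le_two_pow
      have f3 : (2 ^ (i + 1) - 1) * l + l = 2 ^ (i + 1) * l := by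
        rw [Nat.sub_mul, one_mul]
        have : l ≤ 2 ^ (i + 1) * l := Nat.le_mul_of_pos_left l (by omega)
        omega
      have f4 : 2 ^ (i + 1) * l ≤ 2 ^ (k + 1) * l := Nat.mul_le_mul_right _ f1
      have f5 : 2 ^ (k + 2) * l = 2 ^ (k + 1) * l * 2 := by rw [pow_succ]; ring
      omega
    have e2 : (2 : ℕ) ^ (l - n) = 64 * pw l * 2 ^ (l - n - l / 6 - 6) := by
      rw [hW]
      have : (64 : ℕ) = 2 ^ 6 := by norm_num
      rw [this, ← pow_add, ← pow_add]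
      congr 1
      omega
    have e3 : (1 - pq l) ^ (2 ^ (l - n)) ≤ (1 / 2) ^ (2 ^ (l - n - l / 6 - 6)) := by
      rw [e2]
      exact pow_exp (pw l) _ hWpos
    have e4 : 0 ≤ 1 - pq l := by
      unfold pq
      have : (1 : ℝ) ≤ pw l := by exact_mod_cast hWpos
      rw [sub_nonneg, div_le_one (by positivity)]
      linarith
    calc (Fintype.card (Node (Rw n l) (Yq l) i) : ℝ) ^ 2 * (1 - pq l) ^ (2 ^ (l - n))
        ≤ 2 ^ (2 ^ (k + 2) * l) * (1 / 2) ^ (2 ^ (l - n - l / 6 - 6)) :=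
          mul_le_mul e1 e3 (pow_nonneg e4 _) (by positivity)
      _ ≤ (1 / 2) ^ E := hpow _ _ h3
  have hsum : errT (Rw n l) (Yq l) (2 ^ (T + 1)) (pw l) (2 ^ (l - n)) (pq l) k ≤
      (2 * k + 1) * (1 / 2) ^ E := by
    unfold errT
    have s1 : ∑ i ∈ range k, (((((2 ^ (T + 1) : ℕ) : ℝ)) + 1) ^ (i + 1) * (5 / 2 ^ (pw l + 1)) +
        (Fintype.card (Node (Rw n l) (Yq l) i) : ℝ) ^ 2 * (1 - pq l) ^ (2 ^ (l - n))) ≤
        ∑ _i ∈ range k, (2 * (1 / 2 : ℝ) ^ E) := by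
      refine Finset.sum_le_sum fun i hi => ?_
      have := t2 i hi
      have := t3 i hi
      linarith
    rw [Finset.sum_const, Finset.card_range, nsmul_eq_mul] at s1
    have := add_le_add t1 s1
    refine this.trans (le_of_eq ?_)
    ring
  refine hsum.trans ?_
  have e5 : (1 / 2 : ℝ) ^ E = (1 / 2) ^ (2 * k + 1) * (1 / 2 ^ (T + 1) / 2 ^ 2 ^ (l / 8)) := by
    rw [hE, pow_add, pow_add]
    rw [one_div, inv_pow, inv_pow, inv_pow]
    field_simp
  rw [e5, ← mul_assoc]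
  have e6 : (2 * (k : ℝ) + 1) * (1 / 2) ^ (2 * k + 1) ≤ 1 := by
    have : 2 * k + 1 < 2 ^ (2 * k + 1) := Nat.lt_two_pow_self
    have h' : (2 * (k : ℝ) + 1) ≤ 2 ^ (2 * k + 1) := by exact_mod_cast this.le
    rw [one_div, inv_pow, ← div_eq_mul_inv, div_le_one (by positivity)]
    exact h'
  calc (2 * (k : ℝ) + 1) * (1 / 2) ^ (2 * k + 1) * (1 / 2 ^ (T + 1) / 2 ^ 2 ^ (l / 8))
      ≤ 1 * (1 / 2 ^ (T + 1) / 2 ^ 2 ^ (l / 8)) := mul_le_mul_of_nonneg_right e6 (by positivity)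
    _ = _ := one_mul _

theorem erd (h : T_NSQ) : T_ERD := by
  intro k
  filter_upwards [eventually_ge_atTop (6 * cE k)] with n hn l T hl hT
  have ha : cE k ≤ l / 48 := by omega
  refine ⟨?_, ?_⟩
  · have h1 := (nums k (l / 48) l n T rfl ha hl hT).1
    change T ≤ 2 ^ (l / 6)
    refine le_trans ?_ h1
    have h2 : T ≤ T + 1 + 2 ^ (l / 8) + (2 * k + 1) := by
      rw [add_assoc, add_assoc]
      exact Nat.le_add_right _ _
    exact h2.trans (Nat.le_add_left _ _)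
  · cases k with
    | zero =>
      unfold errD
      positivity
    | succ k =>
      unfold errD
      refine errT_le h k l n T ?_ hl hT
      refine le_trans ?_ ha
      unfold cE
      have : 2 ^ (k + 2) ≤ 2 ^ (k + 1 + 2) := Nat.pow_le_pow_right (by norm_num) (by omega)
      omega

end Pool.Agent.H49.NC
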