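import Pool.Agent.H70.NC.Targets

/-!
# The value of a machine depends only on short strings (rows LOM, LOB of nc_modules, MP_64fb07_lc)
-/

set_option autoImplicit false

namespace Pool.Agent.H49.NC

open Finset Filter Pool.Agent.H6.NB Pool.Agent.H70.OQ Pool.Agent.H70.NC

theorem eval_congr (m : ℕ) (O O' : List Bool → Bool) (h : ∀ w : List Bool, w.length ≤ m → O w = O' w) :
    ∀ T : DT, T.Short m → T.eval O = T.eval O' := by
  intro T
  induction T with
  | leaf b => intro _; rfl
  | node w l r ihl ihr =>
    intro hT
    have h1 := h w hT.1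
    have h2 := ihl hT.2.1
    have h3 := ihr hT.2.2
    simp only [DT.eval, h1, h2, h3]

theorem alt_congr (R : List Bool → Prop) : ∀ (k : ℕ) (b : Bool) (P P' : List (List Bool) → Prop),
    (∀ ws : List (List Bool), ws.length = k → (∀ w ∈ ws, R w) → (P ws ↔ P' ws)) →
    (Alt R b k P ↔ Alt R b k P') := by
  intro k
  induction k with
  | zero =>
    intro b P P' h
    have := h [] rfl (by simp)
    cases b <;> simpa [Alt] using this
  | succ k ih =>
    intro b P P' h
    have key : ∀ w, R w → ∀ c, (Alt R c k (fun ws => P (w :: ws)) ↔ Alt R c k fun ws => P' (w :: ws)) := by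
      intro w hw c
      refine ih c _ _ ?_
      intro ws hl hws
      refine h (w :: ws) (by simp [hl]) ?_
      intro u hu
      rcases List.mem_cons.1 hu with rfl | hu
      · exact hw
      · exact hws u hu
    cases b with
    | true =>
      simp only [Alt]
      constructor
      · rintro ⟨w, hw, hA⟩
        exact ⟨w, hw, (key w hw false).1 hA⟩
      · rintro ⟨w, hw, hA⟩
        exact ⟨w, hw, (key w hw false).2 hA⟩
    | false =>
      simp only [Alt]
      constructor
      · intro hA w hw
        exact (key w hw true).1 (hA w hw)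
      · intro hA w hw
        exact (key w hw true).2 (hA w hw)

theorem lom : T_LOM := by
  intro k M O O' a x h
  have h1 : ∀ z : List Bool, z.length ≤ M.time x.length → (M.ans O a x z ↔ M.ans O' a x z) := by
    intro z hz
    refine alt_congr _ _ _ _ _ ?_
    intro ws hl hws
    rw [eval_congr (M.time x.length) O O' h _ (M.tree_short a x z ws hz hl hws)]
  unfold Mach.acc
  rw [eval_congr (M.time x.length) _ (fun z => @decide (M.ans O' a x z) (Classical.propDecidable _)) ?_ _
    (M.out_short a x)]
  intro w hw
  exact decide_eq_decide.2 (h1 w hw)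

theorem nd_congr (O O' : List Bool → Bool) : ∀ (j l : ℕ) (w : List Bool),
    (∀ u : List Bool, u.length ≤ w.length + (2 ^ j - 1) * l → O u = O' u) →
    (Nd O j l w ↔ Nd O' j l w) := by
  intro j
  induction j with
  | zero =>
    intro l w h
    simp only [Nd]
    rw [h w (by simp)]
  | succ j ih =>
    intro l w h
    simp only [Nd]
    refine exists_congr fun v => and_congr_right fun hv => not_congr (ih (2 * l) (w ++ v) ?_)
    intro u hu
    refine h u (hu.trans ?_)
    rw [List.length_append, hv, pow_succ]
    have h1 : 1 ≤ 2 ^ j := Nat.one_le_two_pow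
    obtain ⟨c, hc⟩ : ∃ c, 2 ^ j = c + 1 := ⟨2 ^ j - 1, by omega⟩
    rw [hc]
    have e1 : (c + 1) * 2 - 1 = 2 * c + 1 := by omega
    rw [e1, Nat.add_sub_cancel]
    apply le_of_eq
    ring

theorem lob (h : T_LOM) : T_LOB := by
  intro l k M A n δ O O' hO
  have h1 : ∀ (a : List Bool) (x : Fin n → Bool), (M.acc O a (List.ofFn x) ↔ M.acc O' a (List.ofFn x)) := by
    intro a x
    refine h k M O O' a _ ?_
    intro w hw
    rw [List.length_ofFn] at hw
    exact hO w (by omega)
  have h2 : ∀ x : Fin n → Bool, (List.ofFn x ∈ hard l k O ↔ List.ofFn x ∈ hard l k O') := by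
    intro x
    simp only [hard, Set.mem_ofPred_eq, List.length_ofFn]
    refine nd_congr _ _ _ _ _ ?_
    intro u hu
    rw [List.length_ofFn] at hu
    unfold part
    refine hO _ ?_
    simp only [List.length_cons, List.length_append, List.length_replicate]
    have h3 : (2 ^ (k + 1) - 1) * l n ≤ 2 ^ (k + 1) * l n := Nat.mul_le_mul_right _ (Nat.sub_le _ _)
    omega
  have h3 : ∀ a : List Bool, num l M O a n = num l M O' a n := by
    intro a
    unfold num
    refine congrArg Finset.card ?_
    ext x
    simp only [Finset.mem_filter, h1 a x, h2 x]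
  unfold Bad
  simp only [h3]

end Pool.Agent.H49.NC
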